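import Mathlib

/-!
The real domination roots of paths and of cycles are not dense in `[-2, 0]`.
-/

namespace Pool.Agent.Results.MP_130e73_co.NotDense

open Finset

/-- `S` is a dominating set of `G`. -/
def IsDominating {V : Type} (G : SimpleGraph V) (S : Finset V) : Prop :=
  ∀ v, v ∈ S ∨ ∃ w ∈ S, G.Adj v w

/-- The number of dominating sets of `G` with exactly `i` elements. -/
noncomputable def domCount {V : Type} (G : SimpleGraph V) (i : ℕ) : ℕ :=
  {S : Finset V | IsDominating G S ∧ S.card = i}.ncard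

/-- The domination polynomial `D(G, x)`. -/
noncomputable def domPoly {V : Type} [Fintype V] (G : SimpleGraph V) : Polynomial ℝ :=
  ∑ i ∈ Finset.Icc 1 (Fintype.card V), Polynomial.C (domCount G i : ℝ) * Polynomial.X ^ i

open Classical in
theorem domPoly_eval {V : Type} [Fintype V] [Nonempty V] (G : SimpleGraph V) (x : ℝ) :
    (domPoly G).eval x = ∑ S : Finset V, if IsDominating G S then x ^ S.card else 0 := by
  unfold domPoly
  rw [Polynomial.eval_finsetSum, ← Finset.sum_filter]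
  have hmaps : ∀ S ∈ (univ : Finset (Finset V)).filter (fun S => IsDominating G S),
      S.card ∈ Finset.Icc 1 (Fintype.card V) := by
    intro S hS
    rw [mem_filter] at hS
    rw [mem_Icc]
    refine ⟨?_, card_le_univ S⟩
    rw [Nat.one_le_iff_ne_zero, Ne, card_eq_zero]
    rintro rfl
    obtain ⟨v⟩ := ‹Nonempty V›
    rcases hS.2 v with h | ⟨w, h, -⟩
    · exact absurd h (notMem_empty _)
    · exact absurd h (notMem_empty _)
  rw [← Finset.sum_fiberwise_of_maps_to hmaps]
  apply Finset.sum_congr rfl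
  intro i _
  have h1 : ∑ S ∈ ((univ : Finset (Finset V)).filter (fun S => IsDominating G S)).filter
      (fun S => S.card = i), x ^ S.card =
      ∑ _S ∈ ((univ : Finset (Finset V)).filter (fun S => IsDominating G S)).filter
        (fun S => S.card = i), x ^ i := by
    apply Finset.sum_congr rfl
    intro S hS
    rw [mem_filter] at hS
    rw [hS.2]
  rw [h1, sum_const, nsmul_eq_mul, Polynomial.eval_mul, Polynomial.eval_C, Polynomial.eval_pow,
    Polynomial.eval_X]
  congr 1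
  unfold domCount
  have h2 : {S : Finset V | IsDominating G S ∧ S.card = i} =
      ((((univ : Finset (Finset V)).filter (fun S => IsDominating G S)).filter
        (fun S => S.card = i) : Finset (Finset V)) : Set (Finset V)) := by
    ext S
    simp
  rw [h2, Set.ncard_coe_finset]

/-! ### Weighted sums over subsets of `range n` -/

/-- Every window of three consecutive positions below `n` meets `S`. -/
def Win (n : ℕ) (S : Finset ℕ) : Prop := ∀ i, i + 2 < n → i ∈ S ∨ i + 1 ∈ S ∨ i + 2 ∈ S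

open Classical in
/-- The weighted number of subsets of `range n` with the property `P`. -/
noncomputable def wsum (n : ℕ) (P : Finset ℕ → Prop) (x : ℝ) : ℝ :=
  ∑ S ∈ (range n).powerset, if P S then x ^ S.card else 0

theorem wsum_congr {n : ℕ} {P Q : Finset ℕ → Prop} (h : ∀ S, S ⊆ range n → (P S ↔ Q S))
    (x : ℝ) : wsum n P x = wsum n Q x := by
  unfold wsum
  apply sum_congr rfl
  intro S hS
  rw [mem_powerset] at hS
  by_cases hP : P S
  · rw [if_pos hP, if_pos ((h S hS).mp hP)]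
  · rw [if_neg hP, if_neg (fun hQ => hP ((h S hS).mpr hQ))]

theorem wsum_add {n : ℕ} (P Q : Finset ℕ → Prop) (h : ∀ S, S ⊆ range n → ¬ (P S ∧ Q S))
    (x : ℝ) : wsum n (fun S => P S ∨ Q S) x = wsum n P x + wsum n Q x := by
  unfold wsum
  rw [← sum_add_distrib]
  apply sum_congr rfl
  intro S hS
  rw [mem_powerset] at hS
  have := h S hS
  by_cases hP : P S <;> by_cases hQ : Q S
  · exact absurd ⟨hP, hQ⟩ this
  · rw [if_pos (Or.inl hP), if_pos hP, if_neg hQ, add_zero]
  · rw [if_pos (Or.inr hQ), if_neg hP, if_pos hQ, zero_add]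
  · rw [if_neg (by tauto), if_neg hP, if_neg hQ, add_zero]

theorem wsum_false {n : ℕ} {P : Finset ℕ → Prop} (h : ∀ S, S ⊆ range n → ¬ P S) (x : ℝ) :
    wsum n P x = 0 := by
  unfold wsum
  apply sum_eq_zero
  intro S hS
  rw [mem_powerset] at hS
  rw [if_neg (h S hS)]

/-- Splitting off the last position. -/
theorem wsum_succ (n : ℕ) (P : Finset ℕ → Prop) (x : ℝ) :
    wsum (n + 1) P x = wsum n P x + x * wsum n (fun S => P (insert n S)) x := by
  classical
  unfold wsum
  rw [range_add_one, sum_powerset_insert notMem_range_self]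
  congr 1
  rw [mul_sum]
  apply sum_congr rfl
  intro S hS
  rw [mem_powerset] at hS
  have hn : n ∉ S := fun h => by
    have := mem_range.mp (hS h)
    omega
  by_cases hP : P (insert n S)
  · rw [if_pos hP, if_pos hP, card_insert_of_notMem hn, pow_succ]
    ring
  · rw [if_neg hP, if_neg hP, mul_zero]

section
variable (I : Finset ℕ → Prop) (hI : ∀ n S, 2 ≤ n → (I (insert n S) ↔ I S))

/-- Weighted number of words of length `m + 2` with the initial property `I`, ending in 1. -/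
noncomputable def T (m : ℕ) (x : ℝ) : ℝ :=
  wsum (m + 2) (fun S => I S ∧ Win (m + 2) S ∧ m + 1 ∈ S) x

/-- The same for words ending in 10. -/
noncomputable def R (m : ℕ) (x : ℝ) : ℝ :=
  wsum (m + 2) (fun S => I S ∧ Win (m + 2) S ∧ m + 1 ∉ S ∧ m ∈ S) x

/-- The same for words ending in 00. -/
noncomputable def Z (m : ℕ) (x : ℝ) : ℝ :=
  wsum (m + 2) (fun S => I S ∧ Win (m + 2) S ∧ m + 1 ∉ S ∧ m ∉ S) x

theorem all_eq (m : ℕ) (x : ℝ) :
    wsum (m + 2) (fun S => I S ∧ Win (m + 2) S) x = T I m x + R I m x + Z I m x := by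
  unfold T R Z
  rw [add_assoc, ← wsum_add, ← wsum_add]
  · apply wsum_congr
    intro S _
    tauto
  · intro S _
    tauto
  · intro S _
    tauto

include hI

theorem T_succ (m : ℕ) (x : ℝ) : T I (m + 1) x = x * (T I m x + R I m x + Z I m x) := by
  rw [← all_eq]
  unfold T
  rw [show m + 1 + 2 = (m + 2) + 1 from rfl, wsum_succ]
  rw [wsum_false, zero_add]
  · congr 1
    apply wsum_congr
    intro S hS
    constructor
    · rintro ⟨h1, h2, -⟩
      refine ⟨(hI _ S (by omega)).mp h1, ?_⟩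
      intro i hi
      rcases h2 i (by omega) with h | h | h
      · rw [mem_insert] at h
        exact Or.inl (h.resolve_left (by omega))
      · rw [mem_insert] at h
        exact Or.inr (Or.inl (h.resolve_left (by omega)))
      · rw [mem_insert] at h
        exact Or.inr (Or.inr (h.resolve_left (by omega)))
    · rintro ⟨h1, h2⟩
      refine ⟨(hI _ S (by omega)).mpr h1, ?_, ?_⟩
      · intro i hi
        by_cases him : i = m
        · subst him
          exact Or.inr (Or.inr (mem_insert_self _ _))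
        · rcases h2 i (by omega) with h | h | h
          · exact Or.inl (mem_insert_of_mem h)
          · exact Or.inr (Or.inl (mem_insert_of_mem h))
          · exact Or.inr (Or.inr (mem_insert_of_mem h))
      · exact mem_insert_self _ _
  · rintro S hS ⟨-, -, h⟩
    have := mem_range.mp (hS h)
    omega

omit hI in
theorem R_succ (m : ℕ) (x : ℝ) : R I (m + 1) x = T I m x := by
  unfold R T
  rw [show m + 1 + 2 = (m + 2) + 1 from rfl, wsum_succ]
  rw [wsum_false (P := fun S => I (insert (m + 2) S) ∧ _)]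
  · rw [mul_zero, add_zero]
    apply wsum_congr
    intro S hS
    constructor
    · rintro ⟨h1, h2, h3, h4⟩
      exact ⟨h1, fun i hi => h2 i (by omega), h4⟩
    · rintro ⟨h1, h2, h3⟩
      refine ⟨h1, ?_, ?_, h3⟩
      · intro i hi
        by_cases him : i = m
        · subst him
          exact Or.inr (Or.inl h3)
        · exact h2 i (by omega)
      · intro h
        have := mem_range.mp (hS h)
        omega
  · rintro S hS ⟨-, -, h, -⟩
    exact h (mem_insert_self _ _)

omit hI in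
theorem Z_succ (m : ℕ) (x : ℝ) : Z I (m + 1) x = R I m x := by
  unfold R Z
  rw [show m + 1 + 2 = (m + 2) + 1 from rfl, wsum_succ]
  rw [wsum_false (P := fun S => I (insert (m + 2) S) ∧ _)]
  · rw [mul_zero, add_zero]
    apply wsum_congr
    intro S hS
    constructor
    · rintro ⟨h1, h2, h3, h4⟩
      refine ⟨h1, fun i hi => h2 i (by omega), h4, ?_⟩
      rcases h2 m (by omega) with h | h | h
      · exact h
      · exact absurd h h4
      · exact absurd h h3
    · rintro ⟨h1, h2, h3, h4⟩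
      refine ⟨h1, ?_, ?_, h3⟩
      · intro i hi
        by_cases him : i = m
        · subst him
          exact Or.inl h4
        · exact h2 i (by omega)
      · intro h
        have := mem_range.mp (hS h)
        omega
  · rintro S hS ⟨-, -, h, -⟩
    exact h (mem_insert_self _ _)

theorem T_rec (m : ℕ) (x : ℝ) :
    T I (m + 3) x = x * (T I (m + 2) x + T I (m + 1) x + T I m x) := by
  rw [T_succ I hI, R_succ, Z_succ, R_succ]

end

/-! ### Base values -/

theorem wsum_two (P : Finset ℕ → Prop) (x : ℝ) [Decidable (P ∅)] [Decidable (P {0})]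
    [Decidable (P {1})] [Decidable (P {1, 0})] :
    wsum 2 P x = (if P ∅ then 1 else 0) + x * (if P {0} then 1 else 0) +
      (x * (if P {1} then 1 else 0) + x ^ 2 * (if P {1, 0} then 1 else 0)) := by
  rw [wsum_succ, wsum_succ, wsum_succ]
  have h0 : ∀ Q : Finset ℕ → Prop, ∀ [Decidable (Q ∅)], wsum 0 Q x = if Q ∅ then 1 else 0 := by
    intro Q _
    unfold wsum
    rw [range_zero, powerset_empty, sum_singleton]
    by_cases h : Q ∅
    · rw [if_pos h, if_pos h, card_empty, pow_zero]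
    · rw [if_neg h, if_neg h]
  rw [h0 P, @h0 (fun S => P (insert 0 S)) (by simpa using (inferInstance : Decidable (P {0}))),
    @h0 (fun S => P (insert 1 S)) (by simpa using (inferInstance : Decidable (P {1}))),
    @h0 (fun S => P (insert 1 (insert 0 S)))
      (by simpa using (inferInstance : Decidable (P {1, 0})))]
  simp only [insert_empty_eq]
  have e1 : ∀ (p : Prop) (i j : Decidable p), @ite ℝ p i 1 0 = @ite ℝ p j 1 0 := by
    intro p i j
    congr
  rw [e1 (P {0}) _ inferInstance, e1 (P {1}) _ inferInstance, e1 (P {1, 0}) _ inferInstance]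
  ring

theorem win_two (S : Finset ℕ) : Win 2 S := fun i hi => absurd hi (by omega)

/-- Initial property for paths. -/
def IP : Finset ℕ → Prop := fun S => 0 ∈ S ∨ 1 ∈ S
/-- Initial properties for cycles. -/
def I1 : Finset ℕ → Prop := fun S => 0 ∈ S
def I2 : Finset ℕ → Prop := fun S => 0 ∉ S ∧ 1 ∈ S
def I3 : Finset ℕ → Prop := fun S => 0 ∉ S ∧ 1 ∉ S

theorem hIP : ∀ n S, 2 ≤ n → (IP (insert n S) ↔ IP S) := by
  intro n S hn
  unfold IP
  rw [mem_insert, mem_insert]
  constructor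
  · rintro ((h | h) | (h | h))
    · omega
    · exact Or.inl h
    · omega
    · exact Or.inr h
  · tauto

theorem hI1 : ∀ n S, 2 ≤ n → (I1 (insert n S) ↔ I1 S) := by
  intro n S hn
  unfold I1
  rw [mem_insert]
  constructor
  · rintro (h | h)
    · omega
    · exact h
  · tauto

theorem hI2 : ∀ n S, 2 ≤ n → (I2 (insert n S) ↔ I2 S) := by
  intro n S hn
  unfold I2
  rw [mem_insert, mem_insert]
  have h0 : ¬ (0 = n) := by omega
  have h1 : ¬ (1 = n) := by omega
  tauto

theorem hI3 : ∀ n S, 2 ≤ n → (I3 (insert n S) ↔ I3 S) := by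
  intro n S hn
  unfold I3
  rw [mem_insert, mem_insert]
  have h0 : ¬ (0 = n) := by omega
  have h1 : ¬ (1 = n) := by omega
  tauto

open Classical in
theorem base (I : Finset ℕ → Prop) (x : ℝ) :
    T I 0 x = x * (if I {1} then 1 else 0) + x ^ 2 * (if I {1, 0} then 1 else 0) ∧
    R I 0 x = x * (if I {0} then 1 else 0) ∧
    Z I 0 x = (if I ∅ then 1 else 0) := by
  refine ⟨?_, ?_, ?_⟩
  · unfold T
    rw [wsum_two]
    simp [win_two]
  · unfold R
    rw [wsum_two]
    simp [win_two]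
  · unfold Z
    rw [wsum_two]
    simp [win_two]

/-! ### From graphs on `Fin n` to subsets of `range n` -/

open Classical in
theorem sum_fin_eq (n : ℕ) (P : Finset ℕ → Prop) (x : ℝ) :
    (∑ S : Finset (Fin n), if P (S.map Fin.valEmbedding) then x ^ S.card else 0) =
      wsum n P x := by
  unfold wsum
  refine Finset.sum_bij (fun S _ => S.map Fin.valEmbedding) ?_ ?_ ?_ ?_
  · intro S _
    rw [mem_powerset]
    intro a ha
    rw [mem_map] at ha
    obtain ⟨b, -, rfl⟩ := ha
    exact mem_range.mpr b.isLt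
  · intro S _ S' _ h
    exact Finset.map_injective _ h
  · intro U hU
    rw [mem_powerset] at hU
    refine ⟨univ.filter (fun i : Fin n => i.val ∈ U), mem_univ _, ?_⟩
    ext a
    rw [mem_map]
    constructor
    · rintro ⟨b, hb, rfl⟩
      rw [mem_filter] at hb
      exact hb.2
    · intro ha
      exact ⟨⟨a, mem_range.mp (hU ha)⟩, by rw [mem_filter]; exact ⟨mem_univ _, ha⟩, rfl⟩
  · intro S _
    rw [card_map]

theorem mem_map_val {n : ℕ} (S : Finset (Fin n)) (a : ℕ) :
    a ∈ S.map Fin.valEmbedding ↔ ∃ h : a < n, (⟨a, h⟩ : Fin n) ∈ S := by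
  rw [mem_map]
  constructor
  · rintro ⟨b, hb, rfl⟩
    exact ⟨b.isLt, hb⟩
  · rintro ⟨h, hb⟩
    exact ⟨_, hb, rfl⟩

theorem path_dom (m : ℕ) (S : Finset (Fin (m + 2))) :
    IsDominating (SimpleGraph.pathGraph (m + 2)) S ↔
      (fun U => IP U ∧ Win (m + 2) U ∧ (m + 1 ∈ U ∨ m ∈ U)) (S.map Fin.valEmbedding) := by
  show _ ↔ (0 ∈ _ ∨ 1 ∈ _) ∧ Win (m + 2) _ ∧ _
  constructor
  · intro h
    have key : ∀ a, (ha : a < m + 2) → a ∈ S.map Fin.valEmbedding ∨
        a + 1 ∈ S.map Fin.valEmbedding ∨ (∃ b, b + 1 = a ∧ b ∈ S.map Fin.valEmbedding) := by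
      intro a ha
      rcases h ⟨a, ha⟩ with h1 | ⟨w, hw, hadj⟩
      · left; rw [mem_map_val]; exact ⟨ha, h1⟩
      · rw [SimpleGraph.pathGraph_adj] at hadj
        rcases hadj with h2 | h2
        · right; left
          rw [mem_map_val]
          refine ⟨by have := w.isLt; simp only at h2; omega, ?_⟩
          have : (⟨a + 1, by have := w.isLt; simp only at h2; omega⟩ : Fin (m + 2)) = w :=
            Fin.ext h2
          rw [this]; exact hw
        · right; right
          refine ⟨w.val, h2, ?_⟩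
          rw [mem_map_val]
          exact ⟨w.isLt, hw⟩
    refine ⟨?_, ?_, ?_⟩
    · rcases key 0 (by omega) with h1 | h1 | ⟨b, hb, -⟩
      · exact Or.inl h1
      · exact Or.inr h1
      · omega
    · intro i hi
      rcases key (i + 1) (by omega) with h1 | h1 | ⟨b, hb, h1⟩
      · exact Or.inr (Or.inl h1)
      · exact Or.inr (Or.inr h1)
      · have : b = i := by omega
        subst this
        exact Or.inl h1
    · rcases key (m + 1) (by omega) with h1 | h1 | ⟨b, hb, h1⟩
      · exact Or.inl h1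
      · rw [mem_map_val] at h1
        obtain ⟨h2, -⟩ := h1
        omega
      · have : b = m := by omega
        subst this
        exact Or.inr h1
  · rintro ⟨h1, h2, h3⟩
    have key : ∀ a, (ha : a < m + 2) → ∀ b, b ∈ S.map Fin.valEmbedding →
        (a = b ∨ a + 1 = b ∨ b + 1 = a) →
        (⟨a, ha⟩ : Fin (m + 2)) ∈ S ∨
          ∃ w ∈ S, (SimpleGraph.pathGraph (m + 2)).Adj ⟨a, ha⟩ w := by
      intro a ha b hb hab
      rw [mem_map_val] at hb
      obtain ⟨hb1, hb2⟩ := hb
      rcases hab with h | h | h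
      · subst h; exact Or.inl hb2
      · exact Or.inr ⟨_, hb2, by rw [SimpleGraph.pathGraph_adj]; exact Or.inl h⟩
      · exact Or.inr ⟨_, hb2, by rw [SimpleGraph.pathGraph_adj]; exact Or.inr h⟩
    rintro ⟨a, ha⟩
    by_cases ha0 : a = 0
    · subst ha0
      rcases h1 with h | h
      · exact key 0 ha 0 h (Or.inl rfl)
      · exact key 0 ha 1 h (Or.inr (Or.inl rfl))
    · by_cases hal : a = m + 1
      · subst hal
        rcases h3 with h | h
        · exact key _ ha _ h (Or.inl rfl)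
        · exact key _ ha _ h (Or.inr (Or.inr rfl))
      · rcases h2 (a - 1) (by omega) with h | h | h
        · exact key a ha _ h (Or.inr (Or.inr (by omega)))
        · exact key a ha _ h (Or.inl (by omega))
        · exact key a ha _ h (Or.inr (Or.inl (by omega)))

theorem path_eval (m : ℕ) (x : ℝ) :
    (domPoly (SimpleGraph.pathGraph (m + 2))).eval x = T IP m x + R IP m x := by
  classical
  rw [domPoly_eval]
  have h : (∑ S : Finset (Fin (m + 2)),
      if IsDominating (SimpleGraph.pathGraph (m + 2)) S then x ^ S.card else 0) =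
      ∑ S : Finset (Fin (m + 2)),
        if (fun U => IP U ∧ Win (m + 2) U ∧ (m + 1 ∈ U ∨ m ∈ U)) (S.map Fin.valEmbedding)
          then x ^ S.card else 0 := by
    apply sum_congr rfl
    intro S _
    by_cases hS : IsDominating (SimpleGraph.pathGraph (m + 2)) S
    · rw [if_pos hS, if_pos ((path_dom m S).mp hS)]
    · rw [if_neg hS, if_neg (fun hc => hS ((path_dom m S).mpr hc))]
  rw [h]
  refine Eq.trans ?_ ((sum_fin_eq (m + 2)
    (fun U => IP U ∧ Win (m + 2) U ∧ (m + 1 ∈ U ∨ m ∈ U)) x).trans ?_)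
  · apply sum_congr rfl
    intro S _
    congr
  · unfold T R
    rw [← wsum_add]
    · apply wsum_congr
      intro S _
      tauto
    · intro S _
      tauto

theorem cycle_adj (m : ℕ) (u v : Fin (m + 3)) :
    (SimpleGraph.cycleGraph (m + 3)).Adj u v ↔
      (u.val + 1 = v.val ∨ v.val + 1 = u.val ∨ (u.val = 0 ∧ v.val = m + 2) ∨
        (v.val = 0 ∧ u.val = m + 2)) := by
  have hsub : ∀ a b : Fin (m + 3), (a - b).val = 1 ↔
      (b.val + 1 = a.val ∨ (a.val = 0 ∧ b.val = m + 2)) := by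
    intro a b
    rw [Fin.sub_def]
    simp only
    have ha := a.isLt
    have hb := b.isLt
    by_cases hab : b.val ≤ a.val
    · have e : m + 3 - b.val + a.val = (a.val - b.val) + (m + 3) := by omega
      rw [e, Nat.add_mod_right, Nat.mod_eq_of_lt (by omega)]
      omega
    · rw [Nat.mod_eq_of_lt (by omega)]
      omega
  rw [SimpleGraph.cycleGraph_adj', hsub, hsub]
  tauto

/-- The condition for cycles. -/
def CC (m : ℕ) : Finset ℕ → Prop := fun U =>
  Win (m + 3) U ∧ (0 ∈ U ∨ 1 ∈ U ∨ m + 2 ∈ U) ∧ (0 ∈ U ∨ m + 2 ∈ U ∨ m + 1 ∈ U)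

theorem cycle_dom (m : ℕ) (S : Finset (Fin (m + 3))) :
    IsDominating (SimpleGraph.cycleGraph (m + 3)) S ↔ CC m (S.map Fin.valEmbedding) := by
  unfold CC
  constructor
  · intro h
    have key : ∀ a, (ha : a < m + 3) → a ∈ S.map Fin.valEmbedding ∨
        (∃ b, b ∈ S.map Fin.valEmbedding ∧ (a + 1 = b ∨ b + 1 = a ∨ (a = 0 ∧ b = m + 2) ∨
          (b = 0 ∧ a = m + 2))) := by
      intro a ha
      rcases h ⟨a, ha⟩ with h1 | ⟨w, hw, hadj⟩
      · left; rw [mem_map_val]; exact ⟨ha, h1⟩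
      · rw [cycle_adj] at hadj
        exact Or.inr ⟨w.val, by rw [mem_map_val]; exact ⟨w.isLt, hw⟩, hadj⟩
    have hlt : ∀ b, b ∈ S.map Fin.valEmbedding → b < m + 3 := by
      intro b hb
      rw [mem_map_val] at hb
      exact hb.1
    refine ⟨?_, ?_, ?_⟩
    · intro i hi
      rcases key (i + 1) (by omega) with h1 | ⟨b, hb, h2⟩
      · exact Or.inr (Or.inl h1)
      · have : b = i ∨ b = i + 2 := by omega
        rcases this with h3 | h3
        · subst h3; exact Or.inl hb
        · subst h3; exact Or.inr (Or.inr hb)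
    · rcases key 0 (by omega) with h1 | ⟨b, hb, h2⟩
      · exact Or.inl h1
      · have : b = 1 ∨ b = m + 2 := by omega
        rcases this with h3 | h3
        · subst h3; exact Or.inr (Or.inl hb)
        · subst h3; exact Or.inr (Or.inr hb)
    · rcases key (m + 2) (by omega) with h1 | ⟨b, hb, h2⟩
      · exact Or.inr (Or.inl h1)
      · have := hlt b hb
        have : b = 0 ∨ b = m + 1 := by omega
        rcases this with h3 | h3
        · subst h3; exact Or.inl hb
        · subst h3; exact Or.inr (Or.inr hb)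
  · rintro ⟨h1, h2, h3⟩
    have key : ∀ a, (ha : a < m + 3) → ∀ b, b ∈ S.map Fin.valEmbedding →
        (a = b ∨ (a + 1 = b ∨ b + 1 = a ∨ (a = 0 ∧ b = m + 2) ∨ (b = 0 ∧ a = m + 2))) →
        (⟨a, ha⟩ : Fin (m + 3)) ∈ S ∨
          ∃ w ∈ S, (SimpleGraph.cycleGraph (m + 3)).Adj ⟨a, ha⟩ w := by
      intro a ha b hb hab
      rw [mem_map_val] at hb
      obtain ⟨hb1, hb2⟩ := hb
      rcases hab with h | h
      · subst h; exact Or.inl hb2
      · exact Or.inr ⟨_, hb2, by rw [cycle_adj]; exact h⟩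
    rintro ⟨a, ha⟩
    by_cases ha0 : a = 0
    · subst ha0
      rcases h2 with h | h | h
      · exact key 0 ha _ h (by omega)
      · exact key 0 ha _ h (by omega)
      · exact key 0 ha _ h (by omega)
    · by_cases hal : a = m + 2
      · subst hal
        rcases h3 with h | h | h
        · exact key _ ha _ h (by omega)
        · exact key _ ha _ h (by omega)
        · exact key _ ha _ h (by omega)
      · rcases h1 (a - 1) (by omega) with h | h | h
        · exact key a ha _ h (by omega)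
        · exact key a ha _ h (by omega)
        · exact key a ha _ h (by omega)

/-- The combination giving the domination polynomial of a cycle. -/
noncomputable def Dc (m : ℕ) (x : ℝ) : ℝ :=
  (T I1 m x + R I1 m x + Z I1 m x) + ((T I2 m x + R I2 m x) + T I3 m x)

theorem cycle_eval (m : ℕ) (x : ℝ) :
    (domPoly (SimpleGraph.cycleGraph (m + 3))).eval x = Dc (m + 1) x := by
  classical
  rw [domPoly_eval]
  have h : (∑ S : Finset (Fin (m + 3)),
      if IsDominating (SimpleGraph.cycleGraph (m + 3)) S then x ^ S.card else 0) =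
      ∑ S : Finset (Fin (m + 3)),
        if CC m (S.map Fin.valEmbedding) then x ^ S.card else 0 := by
    apply sum_congr rfl
    intro S _
    by_cases hS : IsDominating (SimpleGraph.cycleGraph (m + 3)) S
    · rw [if_pos hS, if_pos ((cycle_dom m S).mp hS)]
    · rw [if_neg hS, if_neg (fun hc => hS ((cycle_dom m S).mpr hc))]
  rw [h]
  refine Eq.trans ?_ ((sum_fin_eq (m + 3) (CC m) x).trans ?_)
  · apply sum_congr rfl
    intro S _
    congr
  · unfold Dc
    rw [← all_eq]
    unfold T R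
    rw [← wsum_add, ← wsum_add, ← wsum_add]
    · apply wsum_congr
      intro S _
      unfold CC I1 I2 I3
      rw [show m + 1 + 2 = m + 3 from rfl, show m + 1 + 1 = m + 2 from rfl]
      tauto
    · intro S _
      unfold I1 I2 I3
      tauto
    · intro S _
      unfold I2 I3
      tauto
    · intro S _
      tauto

/-! ### Nonvanishing near `-15/8` -/

theorem step (a y0 y1 y2 : ℝ) (ha1 : 1846 / 1000 < a) (ha2 : a < 1895 / 1000) (h0 : 0 < y0)
    (h1 : 11 / 10 * y0 < y1) (h1' : y1 < 9 / 5 * y0) (h2 : 11 / 10 * y1 < y2)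
    (h2' : y2 < 9 / 5 * y1) :
    11 / 10 * y2 < a * (y2 - y1 + y0) ∧ a * (y2 - y1 + y0) < 9 / 5 * y2 := by
  constructor
  · have e1 : 0 < (a - 11 / 10) * (y2 - 11 / 10 * y1) := mul_pos (by linarith) (by linarith)
    have e2 : 0 < (121 / 100 - a / 10) * (9 / 5 * y0 - y1) :=
      mul_pos (by linarith) (by linarith)
    have e3 : 0 < (118 / 100 * a - 2178 / 1000) * y0 := mul_pos (by linarith) h0
    nlinarith
  · have e1 : 0 < (a - 9 / 5) * (9 / 5 * y1 - y2) := mul_pos (by linarith) (by linarith)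
    have e2 : 0 < (324 / 100 - 4 / 5 * a) * (y1 - 11 / 10 * y0) :=
      mul_pos (by linarith) (by linarith)
    have e3 : 0 < (3564 / 1000 - 188 / 100 * a) * y0 := mul_pos (by linarith) h0
    nlinarith

theorem key (d : ℕ → ℝ → ℝ) (hcont : ∀ n, Continuous (d n))
    (hrec : ∀ n, 4 ≤ n → ∀ x, d (n + 3) x = x * (d (n + 2) x + d (n + 1) x + d n x))
    (x0 : ℝ) (hx1 : -(1895 / 1000) < x0) (hx2 : x0 < -(1846 / 1000))
    (N : ℕ) (hN : 4 ≤ N) (h0 : ∀ n, 4 ≤ n → n < N → d n x0 ≠ 0)
    (hy0 : 0 < (-1) ^ N * d N x0)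
    (hy1 : 11 / 10 * ((-1) ^ N * d N x0) < (-1) ^ (N + 1) * d (N + 1) x0)
    (hy1' : (-1) ^ (N + 1) * d (N + 1) x0 < 9 / 5 * ((-1) ^ N * d N x0))
    (hy2 : 11 / 10 * ((-1) ^ (N + 1) * d (N + 1) x0) < (-1) ^ (N + 2) * d (N + 2) x0)
    (hy2' : (-1) ^ (N + 2) * d (N + 2) x0 < 9 / 5 * ((-1) ^ (N + 1) * d (N + 1) x0)) :
    ∀ᶠ x in nhds x0, ∀ n, 4 ≤ n → d n x ≠ 0 := by
  have c0 : Continuous (fun x => (-1) ^ N * d N x) := continuous_const.mul (hcont N)
  have c1 : Continuous (fun x => (-1) ^ (N + 1) * d (N + 1) x) :=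
    continuous_const.mul (hcont (N + 1))
  have c2 : Continuous (fun x => (-1) ^ (N + 2) * d (N + 2) x) :=
    continuous_const.mul (hcont (N + 2))
  have e0 : ∀ᶠ x in nhds x0, ∀ n ∈ Finset.Ico 4 N, d n x ≠ 0 := by
    rw [Filter.eventually_all_finset]
    intro n hn
    rw [Finset.mem_Ico] at hn
    exact (hcont n).continuousAt.eventually_ne (h0 n hn.1 hn.2)
  have e1 : ∀ᶠ x in nhds x0, -(1895 / 1000) < x := lt_mem_nhds hx1
  have e2 : ∀ᶠ x in nhds x0, x < -(1846 / 1000) := gt_mem_nhds hx2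
  have e3 := (isOpen_lt continuous_const c0).mem_nhds hy0
  have e4 := (isOpen_lt (continuous_const.mul c0) c1).mem_nhds hy1
  have e5 := (isOpen_lt c1 (continuous_const.mul c0)).mem_nhds hy1'
  have e6 := (isOpen_lt (continuous_const.mul c1) c2).mem_nhds hy2
  have e7 := (isOpen_lt c2 (continuous_const.mul c1)).mem_nhds hy2'
  filter_upwards [e0, e1, e2, e3, e4, e5, e6, e7] with x f0 f1 f2 f3 f4 f5 f6 f7
  have main : ∀ k, 0 < (-1) ^ (N + k) * d (N + k) x ∧
      11 / 10 * ((-1) ^ (N + k) * d (N + k) x) < (-1) ^ (N + k + 1) * d (N + k + 1) x ∧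
      (-1) ^ (N + k + 1) * d (N + k + 1) x < 9 / 5 * ((-1) ^ (N + k) * d (N + k) x) ∧
      11 / 10 * ((-1) ^ (N + k + 1) * d (N + k + 1) x) <
        (-1) ^ (N + k + 2) * d (N + k + 2) x ∧
      (-1) ^ (N + k + 2) * d (N + k + 2) x <
        9 / 5 * ((-1) ^ (N + k + 1) * d (N + k + 1) x) := by
    intro k
    induction k with
    | zero => exact ⟨f3, f4, f5, f6, f7⟩
    | succ k ih =>
      obtain ⟨g0, g1, g1', g2, g2'⟩ := ih
      have hs := step (-x) _ _ _ (by linarith) (by linarith) g0 g1 g1' g2 g2'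
      have hr : (-1) ^ (N + k + 3) * d (N + k + 3) x =
          -x * ((-1) ^ (N + k + 2) * d (N + k + 2) x - (-1) ^ (N + k + 1) * d (N + k + 1) x +
            (-1) ^ (N + k) * d (N + k) x) := by
        rw [hrec (N + k) (by omega)]
        ring
      rw [← hr] at hs
      have p1 : 0 < (-1) ^ (N + k + 1) * d (N + k + 1) x := by linarith
      exact ⟨p1, g2, g2', hs.1, hs.2⟩
  intro n hn
  by_cases hnN : n < N
  · exact f0 n (Finset.mem_Ico.mpr ⟨hn, hnN⟩)
  · have h := (main (n - N)).1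
    rw [show N + (n - N) = n by omega] at h
    intro hz
    rw [hz, mul_zero] at h
    exact lt_irrefl _ h

/-! ### Recurrences and values -/

theorem path_rec (n : ℕ) (hn : 4 ≤ n) (x : ℝ) :
    (domPoly (SimpleGraph.pathGraph (n + 3))).eval x =
      x * ((domPoly (SimpleGraph.pathGraph (n + 2))).eval x +
        (domPoly (SimpleGraph.pathGraph (n + 1))).eval x +
        (domPoly (SimpleGraph.pathGraph n)).eval x) := by
  obtain ⟨k, rfl⟩ : ∃ k, n = k + 1 + 1 + 2 := ⟨n - 4, by omega⟩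
  have e3 := path_eval (k + 1 + 1 + 3) x
  have e2 := path_eval (k + 1 + 1 + 2) x
  have e1 := path_eval (k + 1 + 1 + 1) x
  have e0 := path_eval (k + 1 + 1) x
  have h3 : (domPoly (SimpleGraph.pathGraph (k + 1 + 1 + 2 + 3))).eval x =
    T IP (k + 1 + 1 + 3) x + R IP (k + 1 + 1 + 3) x := e3
  have h2 : (domPoly (SimpleGraph.pathGraph (k + 1 + 1 + 2 + 2))).eval x =
    T IP (k + 1 + 1 + 2) x + R IP (k + 1 + 1 + 2) x := e2
  have h1 : (domPoly (SimpleGraph.pathGraph (k + 1 + 1 + 2 + 1))).eval x =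
    T IP (k + 1 + 1 + 1) x + R IP (k + 1 + 1 + 1) x := e1
  have h0 : (domPoly (SimpleGraph.pathGraph (k + 1 + 1 + 2))).eval x =
    T IP (k + 1 + 1) x + R IP (k + 1 + 1) x := e0
  rw [h3, h2, h1, h0, T_rec IP hIP (k + 1 + 1)]
  have r3 : R IP (k + 1 + 1 + 3) x = T IP (k + 1 + 3) x := R_succ IP (k + 1 + 1 + 2) x
  have r2 : R IP (k + 1 + 1 + 2) x = T IP (k + 1 + 2) x := R_succ IP (k + 1 + 1 + 1) x
  have r1 : R IP (k + 1 + 1 + 1) x = T IP (k + 1 + 1) x := R_succ IP (k + 1 + 1) x
  have r0 : R IP (k + 1 + 1) x = T IP (k + 1) x := R_succ IP (k + 1) x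
  rw [r3, r2, r1, r0, T_rec IP hIP (k + 1)]
  ring

theorem Dc_rec (k : ℕ) (x : ℝ) :
    Dc (k + 2 + 3) x = x * (Dc (k + 2 + 2) x + Dc (k + 2 + 1) x + Dc (k + 2) x) := by
  unfold Dc
  have hR : ∀ I, ∀ j, R I (j + 1) x = T I j x := fun I j => R_succ I j x
  have hZ : ∀ I, ∀ j, Z I (j + 2) x = T I j x := fun I j => by
    have h1 : Z I (j + 2) x = R I (j + 1) x := Z_succ I (j + 1) x
    rw [h1, hR]
  have z3 : Z I1 (k + 2 + 3) x = T I1 (k + 3) x := hZ I1 (k + 3)
  have z2 : Z I1 (k + 2 + 2) x = T I1 (k + 2) x := hZ I1 (k + 2)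
  have z1 : Z I1 (k + 2 + 1) x = T I1 (k + 1) x := hZ I1 (k + 1)
  have z0 : Z I1 (k + 2) x = T I1 k x := hZ I1 k
  have a3 : R I1 (k + 2 + 3) x = T I1 (k + 1 + 3) x := hR I1 (k + 1 + 3)
  have a2 : R I1 (k + 2 + 2) x = T I1 (k + 1 + 2) x := hR I1 (k + 1 + 2)
  have a1 : R I1 (k + 2 + 1) x = T I1 (k + 1 + 1) x := hR I1 (k + 1 + 1)
  have a0 : R I1 (k + 2) x = T I1 (k + 1) x := hR I1 (k + 1)
  have b3 : R I2 (k + 2 + 3) x = T I2 (k + 1 + 3) x := hR I2 (k + 1 + 3)
  have b2 : R I2 (k + 2 + 2) x = T I2 (k + 1 + 2) x := hR I2 (k + 1 + 2)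
  have b1 : R I2 (k + 2 + 1) x = T I2 (k + 1 + 1) x := hR I2 (k + 1 + 1)
  have b0 : R I2 (k + 2) x = T I2 (k + 1) x := hR I2 (k + 1)
  rw [z3, z2, z1, z0, a3, a2, a1, a0, b3, b2, b1, b0, T_rec I1 hI1 (k + 2), T_rec I2 hI2 (k + 2),
    T_rec I3 hI3 (k + 2), T_rec I1 hI1 (k + 1), T_rec I2 hI2 (k + 1), T_rec I1 hI1 k]
  ring

theorem cycle_rec (n : ℕ) (hn : 4 ≤ n) (x : ℝ) :
    (domPoly (SimpleGraph.cycleGraph (n + 3))).eval x =
      x * ((domPoly (SimpleGraph.cycleGraph (n + 2))).eval x +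
        (domPoly (SimpleGraph.cycleGraph (n + 1))).eval x +
        (domPoly (SimpleGraph.cycleGraph n)).eval x) := by
  obtain ⟨k, rfl⟩ : ∃ k, n = k + 1 + 3 := ⟨n - 4, by omega⟩
  have h3 : (domPoly (SimpleGraph.cycleGraph (k + 1 + 3 + 3))).eval x = Dc (k + 2 + 3) x :=
    cycle_eval (k + 1 + 3) x
  have h2 : (domPoly (SimpleGraph.cycleGraph (k + 1 + 3 + 2))).eval x = Dc (k + 2 + 2) x :=
    cycle_eval (k + 1 + 2) x
  have h1 : (domPoly (SimpleGraph.cycleGraph (k + 1 + 3 + 1))).eval x = Dc (k + 2 + 1) x :=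
    cycle_eval (k + 1 + 1) x
  have h0 : (domPoly (SimpleGraph.cycleGraph (k + 1 + 3))).eval x = Dc (k + 2) x :=
    cycle_eval (k + 1) x
  rw [h3, h2, h1, h0, Dc_rec]

/-- The first values of `T`, `R`, `Z`. -/
theorem vals (I : Finset ℕ → Prop) (hI : ∀ n S, 2 ≤ n → (I (insert n S) ↔ I S)) (x t r z : ℝ)
    (h0 : T I 0 x = t) (h1 : R I 0 x = r) (h2 : Z I 0 x = z) :
    T I 1 x = x * (t + r + z) ∧ T I 2 x = x * (x * (t + r + z) + t + r) ∧
      T I 3 x = x * (x * (x * (t + r + z) + t + r) + x * (t + r + z) + t) ∧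
      T I 4 x = x * (x * (x * (x * (t + r + z) + t + r) + x * (t + r + z) + t) +
        x * (x * (t + r + z) + t + r) + x * (t + r + z)) := by
  have a1 : T I 1 x = x * (t + r + z) := by
    have := T_succ I hI 0 x
    rw [h0, h1, h2] at this
    exact this
  have r1 : R I 1 x = t := (R_succ I 0 x).trans h0
  have z1 : Z I 1 x = r := (Z_succ I 0 x).trans h1
  have a2 : T I 2 x = x * (x * (t + r + z) + t + r) := by
    have := T_succ I hI 1 x
    rw [a1, r1, z1] at this
    exact this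
  have a3 : T I 3 x = x * (x * (x * (t + r + z) + t + r) + x * (t + r + z) + t) := by
    have := T_rec I hI 0 x
    rw [show T I (0 + 2) x = _ from a2, show T I (0 + 1) x = _ from a1, h0] at this
    exact this
  have a4 : T I 4 x = x * (x * (x * (x * (t + r + z) + t + r) + x * (t + r + z) + t) +
        x * (x * (t + r + z) + t + r) + x * (t + r + z)) := by
    have := T_rec I hI 1 x
    rw [show T I (1 + 2) x = _ from a3, show T I (1 + 1) x = _ from a2, a1] at this
    exact this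
  exact ⟨a1, a2, a3, a4⟩

theorem IP_vals (x : ℝ) : T IP 0 x = x + x ^ 2 ∧ R IP 0 x = x ∧ Z IP 0 x = 0 := by
  obtain ⟨b0, b1, b2⟩ := base IP x
  refine ⟨b0.trans ?_, b1.trans ?_, b2.trans ?_⟩ <;> simp [IP]

theorem I1_vals (x : ℝ) : T I1 0 x = x ^ 2 ∧ R I1 0 x = x ∧ Z I1 0 x = 0 := by
  obtain ⟨b0, b1, b2⟩ := base I1 x
  refine ⟨b0.trans ?_, b1.trans ?_, b2.trans ?_⟩ <;> simp [I1]

theorem I2_vals (x : ℝ) : T I2 0 x = x ∧ R I2 0 x = 0 ∧ Z I2 0 x = 0 := by
  obtain ⟨b0, b1, b2⟩ := base I2 x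
  refine ⟨b0.trans ?_, b1.trans ?_, b2.trans ?_⟩ <;> simp [I2]

theorem I3_vals (x : ℝ) : T I3 0 x = 0 ∧ R I3 0 x = 0 ∧ Z I3 0 x = 1 := by
  obtain ⟨b0, b1, b2⟩ := base I3 x
  refine ⟨b0.trans ?_, b1.trans ?_, b2.trans ?_⟩ <;> simp [I3]

theorem path_values : (domPoly (SimpleGraph.pathGraph 4)).eval (-15 / 8 : ℝ) = (225/4096 : ℝ) ∧
    (domPoly (SimpleGraph.pathGraph 5)).eval (-15 / 8 : ℝ) = (-116775/32768 : ℝ) ∧
    (domPoly (SimpleGraph.pathGraph 6)).eval (-15 / 8 : ℝ) = (702225/262144 : ℝ) := by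
  obtain ⟨b0, b1, b2⟩ := IP_vals (-15 / 8)
  obtain ⟨t1, t2, t3, t4⟩ := vals IP hIP _ _ _ _ b0 b1 b2
  have e4 := path_eval 2 (-15 / 8)
  have e5 := path_eval 3 (-15 / 8)
  have e6 := path_eval 4 (-15 / 8)
  have r2 : R IP 2 (-15 / 8) = T IP 1 (-15 / 8) := R_succ IP 1 _
  have r3 : R IP 3 (-15 / 8) = T IP 2 (-15 / 8) := R_succ IP 2 _
  have r4 : R IP 4 (-15 / 8) = T IP 3 (-15 / 8) := R_succ IP 3 _
  rw [r2, t1, t2] at e4
  rw [r3, t2, t3] at e5
  rw [r4, t3, t4] at e6
  refine ⟨e4.trans ?_, e5.trans ?_, e6.trans ?_⟩ <;> norm_num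

theorem cycle_values : (domPoly (SimpleGraph.cycleGraph 4)).eval (-15 / 8 : ℝ) = (29025/4096 : ℝ) ∧
    (domPoly (SimpleGraph.cycleGraph 5)).eval (-15 / 8 : ℝ) = (-318375/32768 : ℝ) ∧
    (domPoly (SimpleGraph.cycleGraph 6)).eval (-15 / 8 : ℝ) = (2113425/262144 : ℝ) := by
  obtain ⟨b0, b1, b2⟩ := I1_vals (-15 / 8)
  obtain ⟨c0, c1, c2⟩ := I2_vals (-15 / 8)
  obtain ⟨f0, f1, f2⟩ := I3_vals (-15 / 8)
  obtain ⟨t1, t2, t3, t4⟩ := vals I1 hI1 _ _ _ _ b0 b1 b2
  obtain ⟨s1, s2, s3, s4⟩ := vals I2 hI2 _ _ _ _ c0 c1 c2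
  obtain ⟨q1, q2, q3, q4⟩ := vals I3 hI3 _ _ _ _ f0 f1 f2
  have hR : ∀ I, ∀ j, R I (j + 1) (-15 / 8) = T I j (-15 / 8) := fun I j => R_succ I j _
  have hZ : ∀ I, ∀ j, Z I (j + 2) (-15 / 8) = T I j (-15 / 8) := fun I j => by
    have h1 : Z I (j + 2) (-15 / 8) = R I (j + 1) (-15 / 8) := Z_succ I (j + 1) _
    rw [h1, hR]
  have e4 : (domPoly (SimpleGraph.cycleGraph 4)).eval (-15 / 8 : ℝ) = Dc 2 (-15 / 8) :=
    cycle_eval 1 _
  have e5 : (domPoly (SimpleGraph.cycleGraph 5)).eval (-15 / 8 : ℝ) = Dc 3 (-15 / 8) :=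
    cycle_eval 2 _
  have e6 : (domPoly (SimpleGraph.cycleGraph 6)).eval (-15 / 8 : ℝ) = Dc 4 (-15 / 8) :=
    cycle_eval 3 _
  unfold Dc at e4 e5 e6
  rw [show R I1 2 (-15 / 8) = _ from hR I1 1, show R I2 2 (-15 / 8) = _ from hR I2 1,
    show Z I1 2 (-15 / 8) = _ from hZ I1 0, t1, t2, b0, s1, s2, q2] at e4
  rw [show R I1 3 (-15 / 8) = _ from hR I1 2, show R I2 3 (-15 / 8) = _ from hR I2 2,
    show Z I1 3 (-15 / 8) = _ from hZ I1 1, t1, t2, t3, s2, s3, q3] at e5
  rw [show R I1 4 (-15 / 8) = _ from hR I1 3, show R I2 4 (-15 / 8) = _ from hR I2 3,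
    show Z I1 4 (-15 / 8) = _ from hZ I1 2, t2, t3, t4, s3, s4, q4] at e6
  refine ⟨e4.trans ?_, e5.trans ?_, e6.trans ?_⟩ <;> norm_num

theorem path_near : ∀ᶠ x in nhds (-15 / 8 : ℝ), ∀ n, 4 ≤ n →
    (domPoly (SimpleGraph.pathGraph n)).eval x ≠ 0 := by
  set d : ℕ → ℝ → ℝ := fun n x => (domPoly (SimpleGraph.pathGraph n)).eval x with hd
  have hrec : ∀ n, 4 ≤ n → ∀ x, d (n + 3) x = x * (d (n + 2) x + d (n + 1) x + d n x) :=
    fun n hn x => path_rec n hn x
  obtain ⟨a4, a5, a6⟩ : d 4 (-15 / 8) = (225/4096 : ℝ) ∧ d 5 (-15 / 8) = (-116775/32768 : ℝ) ∧ d 6 (-15 / 8) = (702225/262144 : ℝ) :=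
    path_values
  have a7 : d 7 (-15 / 8) = (3263625/2097152 : ℝ) := by
    rw [hrec 4 (by norm_num), a6, a5, a4]; norm_num
  have a8 : d 8 (-15 / 8) = (-21117375/16777216 : ℝ) := by
    rw [hrec 5 (by norm_num), a7, a6, a5]; norm_num
  have a9 : d 9 (-15 / 8) = (-749010375/134217728 : ℝ) := by
    rw [hrec 6 (by norm_num), a8, a7, a6]; norm_num
  have a10 : d 10 (-15 / 8) = (10636160625/1073741824 : ℝ) := by
    rw [hrec 7 (by norm_num), a9, a8, a7]; norm_num
  have a11 : d 11 (-15 / 8) = (-49388484375/8589934592 : ℝ) := by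
    rw [hrec 8 (by norm_num), a10, a9, a8]; norm_num
  have a12 : d 12 (-15 / 8) = (183537950625/68719476736 : ℝ) := by
    rw [hrec 9 (by norm_num), a11, a10, a9]; norm_num
  have a13 : d 13 (-15 / 8) = (-7037165334375/549755813888 : ℝ) := by
    rw [hrec 10 (by norm_num), a12, a11, a10]; norm_num
  have a14 : d 14 (-15 / 8) = (130945870940625/4398046511104 : ℝ) := by
    rw [hrec 11 (by norm_num), a13, a12, a11]; norm_num
  have a15 : d 15 (-15 / 8) = (-1295924656584375/35184372088832 : ℝ) := by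
    rw [hrec 12 (by norm_num), a14, a13, a12]; norm_num
  have a16 : d 16 (-15 / 8) = (10481044056890625/281474976710656 : ℝ) := by
    rw [hrec 13 (by norm_num), a15, a14, a13]; norm_num
  have a17 : d 17 (-15 / 8) = (-127412738166234375/2251799813685248 : ℝ) := by
    rw [hrec 14 (by norm_num), a16, a15, a14]; norm_num
  have a18 : d 18 (-15 / 8) = (1897553455987640625/18014398509481984 : ℝ) := by
    rw [hrec 15 (by norm_num), a17, a16, a15]; norm_num
  have a19 : d 19 (-15 / 8) = (-23235575554481484375/144115188075855872 : ℝ) := by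
    rw [hrec 16 (by norm_num), a18, a17, a16]; norm_num
  have a20 : d 20 (-15 / 8) = (243143447238290390625/1152921504606846976 : ℝ) := by
    rw [hrec 17 (by norm_num), a19, a18, a17]; norm_num
  refine key d (fun n => Polynomial.continuous _) hrec (-15 / 8) (by norm_num) (by norm_num) 18
    (by norm_num) ?_ ?_ ?_ ?_ ?_ ?_
  · intro n h1 h2
    interval_cases n
    · rw [a4]; norm_num
    · rw [a5]; norm_num
    · rw [a6]; norm_num
    · rw [a7]; norm_num
    · rw [a8]; norm_num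
    · rw [a9]; norm_num
    · rw [a10]; norm_num
    · rw [a11]; norm_num
    · rw [a12]; norm_num
    · rw [a13]; norm_num
    · rw [a14]; norm_num
    · rw [a15]; norm_num
    · rw [a16]; norm_num
    · rw [a17]; norm_num
  · rw [a18]; norm_num
  · rw [a18, show (18 + 1 : ℕ) = 19 from rfl, a19]; norm_num
  · rw [a18, show (18 + 1 : ℕ) = 19 from rfl, a19]; norm_num
  · rw [show (18 + 1 : ℕ) = 19 from rfl, show (18 + 2 : ℕ) = 20 from rfl, a19, a20]; norm_num
  · rw [show (18 + 1 : ℕ) = 19 from rfl, show (18 + 2 : ℕ) = 20 from rfl, a19, a20]; norm_num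

theorem cycle_near : ∀ᶠ x in nhds (-15 / 8 : ℝ), ∀ n, 4 ≤ n →
    (domPoly (SimpleGraph.cycleGraph n)).eval x ≠ 0 := by
  set d : ℕ → ℝ → ℝ := fun n x => (domPoly (SimpleGraph.cycleGraph n)).eval x with hd
  have hrec : ∀ n, 4 ≤ n → ∀ x, d (n + 3) x = x * (d (n + 2) x + d (n + 1) x + d n x) :=
    fun n hn x => cycle_rec n hn x
  obtain ⟨b4, b5, b6⟩ : d 4 (-15 / 8) = (29025/4096 : ℝ) ∧ d 5 (-15 / 8) = (-318375/32768 : ℝ) ∧ d 6 (-15 / 8) = (2113425/262144 : ℝ) :=
    cycle_values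
  have b7 : d 7 (-15 / 8) = (-21360375/2097152 : ℝ) := by
    rw [hrec 4 (by norm_num), b6, b5, b4]; norm_num
  have b8 : d 8 (-15 / 8) = (372434625/16777216 : ℝ) := by
    rw [hrec 5 (by norm_num), b7, b6, b5]; norm_num
  have b9 : d 9 (-15 / 8) = (-5052162375/134217728 : ℝ) := by
    rw [hrec 6 (by norm_num), b8, b7, b6]; norm_num
  have b10 : d 10 (-15 / 8) = (51596240625/1073741824 : ℝ) := by
    rw [hrec 7 (by norm_num), b9, b8, b7]; norm_num
  have b11 : d 11 (-15 / 8) = (-525221364375/8589934592 : ℝ) := by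
    rw [hrec 8 (by norm_num), b10, b9, b8]; norm_num
  have b12 : d 12 (-15 / 8) = (6536847470625/68719476736 : ℝ) := by
    rw [hrec 9 (by norm_num), b11, b10, b9]; norm_num
  have b13 : d 13 (-15 / 8) = (-84558539334375/549755813888 : ℝ) := by
    rw [hrec 10 (by norm_num), b12, b11, b10]; norm_num
  have b14 : d 14 (-15 / 8) = (988168903340625/4398046511104 : ℝ) := by
    rw [hrec 11 (by norm_num), b13, b12, b11]; norm_num
  have b15 : d 15 (-15 / 8) = (-10950882401784375/35184372088832 : ℝ) := by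
    rw [hrec 12 (by norm_num), b14, b13, b12]; norm_num
  have b16 : d 16 (-15 / 8) = (126859165386890625/281474976710656 : ℝ) := by
    rw [hrec 13 (by norm_num), b15, b14, b13]; norm_num
  have b17 : d 17 (-15 / 8) = (-1537423739796234375/2251799813685248 : ℝ) := by
    rw [hrec 14 (by norm_num), b16, b15, b14]; norm_num
  have b18 : d 18 (-15 / 8) = (18351103356229640625/18014398509481984 : ℝ) := by
    rw [hrec 15 (by norm_num), b17, b16, b15]; norm_num
  have b19 : d 19 (-15 / 8) = (-212560500339311484375/144115188075855872 : ℝ) := by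
    rw [hrec 16 (by norm_num), b18, b17, b16]; norm_num
  have b20 : d 20 (-15 / 8) = (2462201892546500390625/1152921504606846976 : ℝ) := by
    rw [hrec 17 (by norm_num), b19, b18, b17]; norm_num
  refine key d (fun n => Polynomial.continuous _) hrec (-15 / 8) (by norm_num) (by norm_num) 18
    (by norm_num) ?_ ?_ ?_ ?_ ?_ ?_
  · intro n h1 h2
    interval_cases n
    · rw [b4]; norm_num
    · rw [b5]; norm_num
    · rw [b6]; norm_num
    · rw [b7]; norm_num
    · rw [b8]; norm_num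
    · rw [b9]; norm_num
    · rw [b10]; norm_num
    · rw [b11]; norm_num
    · rw [b12]; norm_num
    · rw [b13]; norm_num
    · rw [b14]; norm_num
    · rw [b15]; norm_num
    · rw [b16]; norm_num
    · rw [b17]; norm_num
  · rw [b18]; norm_num
  · rw [b18, show (18 + 1 : ℕ) = 19 from rfl, b19]; norm_num
  · rw [b18, show (18 + 1 : ℕ) = 19 from rfl, b19]; norm_num
  · rw [show (18 + 1 : ℕ) = 19 from rfl, show (18 + 2 : ℕ) = 20 from rfl, b19, b20]; norm_num
  · rw [show (18 + 1 : ℕ) = 19 from rfl, show (18 + 2 : ℕ) = 20 from rfl, b19, b20]; norm_num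

theorem result : ∃ a b : ℝ, -2 ≤ a ∧ a < b ∧ b ≤ 0 ∧ ∀ x ∈ Set.Icc a b, ∀ n : ℕ, 4 ≤ n →
    ¬ (domPoly (SimpleGraph.pathGraph n)).IsRoot x ∧
      ¬ (domPoly (SimpleGraph.cycleGraph n)).IsRoot x := by
  have h := path_near.and cycle_near
  rw [Metric.eventually_nhds_iff] at h
  obtain ⟨ε, hε, h⟩ := h
  refine ⟨-15 / 8, -15 / 8 + min (ε / 2) 1, by norm_num, ?_, ?_, ?_⟩
  · have : 0 < min (ε / 2) 1 := lt_min (by linarith) (by norm_num)
    linarith
  · have : min (ε / 2) 1 ≤ 1 := min_le_right _ _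
    linarith
  · intro x hx n hn
    have hx' : dist x (-15 / 8) < ε := by
      rw [Real.dist_eq, abs_lt]
      have h1 := hx.1
      have h2 := hx.2
      have : min (ε / 2) 1 ≤ ε / 2 := min_le_left _ _
      constructor <;> linarith
    obtain ⟨h1, h2⟩ := h hx'
    exact ⟨h1 n hn, h2 n hn⟩

end Pool.Agent.Results.MP_130e73_co.NotDense
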